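import Pool.Agent.J4H34.DN.Stm4

/-!
# DN-I4: the sum over the zeros above a line, analytic part (helper49, for project DN of helper34)
-/

set_option autoImplicit false

namespace Pool.Agent.J4H49.DN

open Finset
open Pool.Agent.J4H34.DN (ex)

theorem ex_eq {y : ℝ} (hy : y ≤ 1 / 2) : ex y = 3 - 3 / (3 / 2 - y) := by
  unfold ex
  have h : (3 / 2 - y) ≠ 0 := by linarith
  rw [eq_sub_iff_add_eq, ← add_div, div_eq_iff h]
  ring

theorem ex_sub {y v : ℝ} (h0 : 0 ≤ y) (h1 : y ≤ v) (h2 : v ≤ 1 / 2) : ex v ≤ ex y - (v - y) := by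
  rw [ex_eq h2, ex_eq (h1.trans h2)]
  have a : 0 < 3 / 2 - v := by linarith
  have b : 0 < 3 / 2 - y := by linarith
  have h3 : 3 / (3 / 2 - v) - 3 / (3 / 2 - y) = 3 * (v - y) / ((3 / 2 - v) * (3 / 2 - y)) := by
    rw [div_sub_div _ _ a.ne' b.ne']
    congr 1
    ring
  have h4 : (v - y) ≤ 3 * (v - y) / ((3 / 2 - v) * (3 / 2 - y)) := by
    rw [le_div_iff₀ (by positivity)]
    have h5 : (3 / 2 - v) * (3 / 2 - y) ≤ 3 := by nlinarith
    nlinarith
  linarith

theorem ex_anti {y v : ℝ} (h1 : y ≤ v) (h2 : v ≤ 1 / 2) : ex v ≤ ex y := by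
  rw [ex_eq h2, ex_eq (h1.trans h2)]
  have a : 0 < 3 / 2 - v := by linarith
  have : 3 / (3 / 2 - y) ≤ 3 / (3 / 2 - v) := by gcongr
  linarith

theorem ex_zero : ex 0 = 1 := by
  unfold ex
  norm_num

theorem ex_le_one {y : ℝ} (h0 : 0 ≤ y) (h2 : y ≤ 1 / 2) : ex y ≤ 1 := by
  rw [← ex_zero]
  exact ex_anti h0 h2

theorem ex_lower {y : ℝ} (h0 : 0 ≤ y) (h2 : y ≤ 1 / 2) : 2 * (1 / 2 - y) ≤ ex y := by
  unfold ex
  rw [le_div_iff₀ (by linarith)]
  nlinarith

/-- geometric sums over finite sets of exponents -/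
theorem geo_up {r : ℝ} (h0 : 0 ≤ r) (h1 : r < 1) (k : ℕ) (t : Finset ℕ) (ht : ∀ n ∈ t, k ≤ n) :
    ∑ n ∈ t, r ^ (n - k) ≤ 1 / (1 - r) := by
  have h2 : ∑ n ∈ t, r ^ (n - k) = ∑ j ∈ t.image (fun n => n - k), r ^ j := by
    rw [Finset.sum_image]
    intro a ha b hb hab
    have := ht a ha
    have := ht b hb
    simp only at hab
    omega
  rw [h2, one_div, ← tsum_geometric_of_lt_one h0 h1]
  exact (summable_geometric_of_lt_one h0 h1).sum_le_tsum _ fun _ _ => by positivity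

theorem geo_down {r : ℝ} (h0 : 0 ≤ r) (h1 : r < 1) (k : ℕ) (t : Finset ℕ) (ht : ∀ n ∈ t, n ≤ k) :
    ∑ n ∈ t, r ^ (k - n) ≤ 1 / (1 - r) := by
  have h2 : ∑ n ∈ t, r ^ (k - n) = ∑ j ∈ t.image (fun n => k - n), r ^ j := by
    rw [Finset.sum_image]
    intro a ha b hb hab
    have := ht a ha
    have := ht b hb
    simp only at hab
    omega
  rw [h2, one_div, ← tsum_geometric_of_lt_one h0 h1]
  exact (summable_geometric_of_lt_one h0 h1).sum_le_tsum _ fun _ _ => by positivity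

/-- the hypotheses: `Z` are the zeros, `m` their multiplicities -/
structure Dat (Z : ℂ → Prop) (m : ℂ → ℝ) (C M : ℝ) : Prop where
  hm : ∀ w, 0 ≤ m w
  hZ : ∀ w, Z w → |w.im| < 1 / 2
  hC : 0 < C
  hM : 0 ≤ M
  h1 : ∀ X v : ℝ, 2 ≤ X → 0 ≤ v → v ≤ 1 / 2 → ∀ S : Finset ℂ,
    (∀ w ∈ S, Z w ∧ v ≤ |w.im| ∧ X < |w.re| ∧ |w.re| ≤ 2 * X) →
    ∑ w ∈ S, m w ≤ C * X ^ ex v * Real.log X
  h2 : ∀ S : Finset ℂ, (∀ w ∈ S, Z w ∧ |w.re| ≤ 2) → ∑ w ∈ S, m w ≤ M

variable {Z : ℂ → Prop} {m : ℂ → ℝ} {C M : ℝ}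

theorem layer {δ u : ℝ} (hδ : 0 < δ) (hu : 0 ≤ u) {J : ℕ} (hJ : u / δ ≤ J) :
    u ≤ ∑ j ∈ range J, if (j : ℝ) * δ < u then δ else 0 := by
  have hk : ⌈u / δ⌉₊ ≤ J := Nat.ceil_le.2 hJ
  calc u ≤ ⌈u / δ⌉₊ * δ := by
        rw [← div_le_iff₀ hδ]
        exact Nat.le_ceil _
    _ = ∑ j ∈ range ⌈u / δ⌉₊, δ := by simp
    _ = ∑ j ∈ range ⌈u / δ⌉₊, if (j : ℝ) * δ < u then δ else 0 := by
        apply Finset.sum_congr rfl
        intro j hj
        rw [mem_range, Nat.lt_ceil, lt_div_iff₀ hδ] at hj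
        rw [if_pos hj]
    _ ≤ _ := by
        apply Finset.sum_le_sum_of_subset_of_nonneg
        · exact range_mono hk
        · intro j _ _
          split_ifs
          · exact hδ.le
          · exact le_rfl

/-- one block, `y ≥ 0` -/
theorem block0 (D : Dat Z m C M) {X y : ℝ} (hX : 2 ≤ X) (hy0 : 0 ≤ y) (hy1 : y < 1 / 2) (S : Finset ℂ)
    (hS : ∀ w ∈ S, Z w ∧ y < w.im ∧ X < |w.re| ∧ |w.re| ≤ 2 * X) :
    ∑ w ∈ S, m w * (w.im - y) ≤ 2 * C * X ^ ex y := by
  classical
  have hX0 : 0 < X := by linarith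
  have hL : 0 < Real.log X := Real.log_pos (by linarith)
  have hC := D.hC
  obtain ⟨δ, hδ⟩ : ∃ δ, δ = 1 / Real.log X := ⟨_, rfl⟩
  have hδ0 : 0 < δ := by rw [hδ]; positivity
  obtain ⟨J, hJ⟩ := exists_nat_gt (1 / 2 / δ)
  have h1 : ∀ w ∈ S, m w * (w.im - y) ≤ ∑ j ∈ range J, if y + j * δ < w.im then m w * δ else 0 := by
    intro w hw
    obtain ⟨hz, hyw, -, -⟩ := hS w hw
    have h2 := D.hZ w hz
    have h3 : w.im < 1 / 2 := (le_abs_self _).trans_lt h2
    have h4 : (w.im - y) / δ ≤ J := by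
      refine le_trans ?_ hJ.le
      gcongr
      linarith
    have h5 := layer hδ0 (by linarith : 0 ≤ w.im - y) h4
    calc m w * (w.im - y) ≤ m w * ∑ j ∈ range J, (if (j : ℝ) * δ < w.im - y then δ else 0) :=
          mul_le_mul_of_nonneg_left h5 (D.hm w)
      _ = ∑ j ∈ range J, if y + j * δ < w.im then m w * δ else 0 := by
          rw [Finset.mul_sum]
          apply Finset.sum_congr rfl
          intro j _
          by_cases h6 : (j : ℝ) * δ < w.im - y
          · rw [if_pos h6, if_pos (by linarith)]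
          · rw [if_neg h6, if_neg (by intro h7; exact h6 (by linarith)), mul_zero]
  have h2 : ∀ j ∈ range J, (∑ w ∈ S, if y + j * δ < w.im then m w * δ else 0) ≤
      C * X ^ ex y * (Real.exp (-1)) ^ j := by
    intro j _
    rw [← Finset.sum_filter, ← Finset.sum_mul]
    by_cases hj : y + j * δ ≤ 1 / 2
    · have hv : 0 ≤ y + j * δ := by positivity
      have h3 := D.h1 X (y + j * δ) hX hv hj (S.filter fun w => y + j * δ < w.im) (by
        intro w hw
        rw [mem_filter] at hw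
        obtain ⟨hz, -, a, b⟩ := hS w hw.1
        exact ⟨hz, hw.2.le.trans (le_abs_self _), a, b⟩)
      have h4 : X ^ ex (y + j * δ) ≤ X ^ ex y * (Real.exp (-1)) ^ j := by
        have h5 : ex (y + j * δ) ≤ ex y - j * δ := by
          have := ex_sub hy0 (by linarith [show 0 ≤ (j : ℝ) * δ by positivity] : y ≤ y + j * δ) hj
          linarith
        calc X ^ ex (y + j * δ) ≤ X ^ (ex y - j * δ) := Real.rpow_le_rpow_of_exponent_le (by linarith) h5
          _ = X ^ ex y * X ^ (-(j * δ)) := by rw [← Real.rpow_add hX0]; ring_nf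
          _ = X ^ ex y * (Real.exp (-1)) ^ j := by
              congr 1
              rw [Real.rpow_def_of_pos hX0, ← Real.exp_nat_mul]
              congr 1
              rw [hδ]
              field_simp
      calc (∑ w ∈ S.filter fun w => y + j * δ < w.im, m w) * δ
          ≤ (C * X ^ ex (y + j * δ) * Real.log X) * δ := by gcongr
        _ ≤ (C * (X ^ ex y * (Real.exp (-1)) ^ j) * Real.log X) * δ := by gcongr
        _ = C * X ^ ex y * (Real.exp (-1)) ^ j := by
            rw [hδ]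
            field_simp
    · have h3 : (S.filter fun w => y + j * δ < w.im) = ∅ := by
        rw [Finset.filter_eq_empty_iff]
        intro w hw h4
        have := (le_abs_self _).trans_lt (D.hZ w (hS w hw).1)
        push Not at hj
        linarith
      rw [h3, Finset.sum_empty, zero_mul]
      positivity
  have he : Real.exp (-1) ≤ 1 / 2 := by
    rw [Real.exp_neg, inv_le_comm₀ (Real.exp_pos _) (by norm_num)]
    have := Real.add_one_le_exp (1 : ℝ)
    norm_num at this ⊢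
    exact this
  have h3 : ∑ j ∈ range J, (Real.exp (-1)) ^ j ≤ 2 := by
    have h4 := geo_up (Real.exp_pos (-1)).le (by linarith) 0 (range J) (by intro n _; exact Nat.zero_le n)
    simp only [Nat.sub_zero] at h4
    refine h4.trans ?_
    rw [div_le_iff₀ (by linarith)]
    linarith
  calc ∑ w ∈ S, m w * (w.im - y) ≤ ∑ w ∈ S, ∑ j ∈ range J, (if y + j * δ < w.im then m w * δ else 0) :=
        Finset.sum_le_sum h1
    _ = ∑ j ∈ range J, ∑ w ∈ S, (if y + j * δ < w.im then m w * δ else 0) := Finset.sum_comm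
    _ ≤ ∑ j ∈ range J, C * X ^ ex y * (Real.exp (-1)) ^ j := Finset.sum_le_sum h2
    _ = C * X ^ ex y * ∑ j ∈ range J, (Real.exp (-1)) ^ j := by rw [Finset.mul_sum]
    _ ≤ C * X ^ ex y * 2 := by gcongr
    _ = _ := by ring

/-- one block, all `y` -/
theorem block (D : Dat Z m C M) {X T y : ℝ} (hX : 2 ≤ X) (hT : 1 ≤ Real.log T) (hy0 : -(1 / Real.log T) ≤ y)
    (hy1 : y < 1 / 2) (S : Finset ℂ) (hS : ∀ w ∈ S, Z w ∧ y < w.im ∧ X < |w.re| ∧ |w.re| ≤ 2 * X) :
    ∑ w ∈ S, m w * (w.im - y) ≤ 2 * C * X ^ ex (max y 0) * (1 + Real.log X / Real.log T) := by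
  classical
  have hX0 : 0 < X := by linarith
  have hL : 0 < Real.log X := Real.log_pos (by linarith)
  have hC := D.hC
  have hq : 0 ≤ Real.log X / Real.log T := by positivity
  rcases le_total 0 y with hy | hy
  · rw [max_eq_left hy]
    have h1 := block0 D hX hy hy1 S hS
    have h2 : 0 ≤ 2 * C * X ^ ex y := by positivity
    nlinarith
  · rw [max_eq_right hy, ex_zero, Real.rpow_one]
    have h1 := block0 D hX le_rfl (by norm_num) (S.filter fun w => 0 < w.im) (by
      intro w hw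
      rw [mem_filter] at hw
      obtain ⟨a, -, b, c⟩ := hS w hw.1
      exact ⟨a, hw.2, b, c⟩)
    have h2 := D.h1 X 0 hX le_rfl (by norm_num) S (by
      intro w hw
      obtain ⟨a, -, b, c⟩ := hS w hw
      exact ⟨a, abs_nonneg _, b, c⟩)
    rw [ex_zero, Real.rpow_one] at h1 h2
    have h3 : ∑ w ∈ S, m w * (w.im - y) ≤
        (∑ w ∈ S.filter fun w => 0 < w.im, m w * (w.im - 0)) + ∑ w ∈ S, m w * (1 / Real.log T) := by
      rw [Finset.sum_filter, ← Finset.sum_add_distrib]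
      apply Finset.sum_le_sum
      intro w hw
      have hmw := D.hm w
      split_ifs with h4
      · nlinarith
      · push Not at h4
        nlinarith
    rw [← Finset.sum_mul] at h3
    have h4 : (∑ w ∈ S, m w) * (1 / Real.log T) ≤ C * X * Real.log X * (1 / Real.log T) := by gcongr
    have h5 : C * X * Real.log X * (1 / Real.log T) = C * X * (Real.log X / Real.log T) := by ring
    have h6 : 0 ≤ C * X * (Real.log X / Real.log T) := by positivity
    linarith

/-- the block of a point -/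
theorem blk_ex (w : ℂ) : ∃ n : ℕ, |w.re| ≤ 2 ^ (n + 1) := by
  obtain ⟨n, hn⟩ := pow_unbounded_of_one_lt |w.re| (by norm_num : (1 : ℝ) < 2)
  exact ⟨n, hn.le.trans (pow_le_pow_right₀ (by norm_num) (by omega))⟩

open Classical in
/-- number of the block -/
noncomputable def bl (w : ℂ) : ℕ := Nat.find (blk_ex w)

theorem bl_le (w : ℂ) : |w.re| ≤ 2 ^ (bl w + 1) := by
  classical
  exact Nat.find_spec (blk_ex w)

theorem bl_lt {w : ℂ} (h : bl w ≠ 0) : (2 : ℝ) ^ bl w < |w.re| := by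
  classical
  have h1 := Nat.find_min (blk_ex w) (m := bl w - 1) (by unfold bl at h ⊢; omega)
  rw [Nat.sub_add_cancel (by omega)] at h1
  push Not at h1
  exact h1

theorem wt_one {T x : ℝ} (hT : 0 < T) : T / (T ^ 2 + x ^ 2) ≤ 1 / T := by
  rw [div_le_div_iff₀ (by positivity) hT]
  nlinarith [sq_nonneg x]

theorem wt_far {T x₀ X r : ℝ} (hT : 0 < T) (hX : T < X) (hx : |x₀| ≤ 2 * T) (hr : X < |r|) :
    T / (T ^ 2 + (x₀ - r) ^ 2) ≤ 16 * T / X ^ 2 := by
  have hX0 : 0 < X := hT.trans hX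
  rw [div_le_div_iff₀ (by positivity) (by positivity)]
  rcases le_total (4 * T) X with h | h
  · have h1 : X / 2 ≤ |x₀ - r| := by
      have := abs_sub_abs_le_abs_sub r x₀
      rw [abs_sub_comm] at this
      linarith
    have h2 : (X / 2) ^ 2 ≤ (x₀ - r) ^ 2 := by
      rw [← sq_abs (x₀ - r)]
      exact pow_le_pow_left₀ (by positivity) h1 2
    have h3 : X ^ 2 ≤ 16 * (T ^ 2 + (x₀ - r) ^ 2) := by nlinarith [sq_nonneg T]
    nlinarith
  · have h3 : X ^ 2 ≤ 16 * (T ^ 2 + (x₀ - r) ^ 2) := by nlinarith [sq_nonneg (x₀ - r)]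
    nlinarith

/-- **the sum over all zeros** -/
theorem ana (D : Dat Z m C M) : ∃ C' T₀ : ℝ, 0 < C' ∧ 2 ≤ T₀ ∧ ∀ T : ℝ, T₀ ≤ T → ∀ y : ℝ,
    -(1 / Real.log T) ≤ y → y < 1 / 2 → ∀ x₀ : ℝ, |x₀| ≤ 2 * T → ∀ S : Finset ℂ,
    (∀ w ∈ S, Z w ∧ y < w.im) →
    ∑ w ∈ S, m w * ((w.im - y) * T / (T ^ 2 + (x₀ - w.re) ^ 2)) ≤ C' * T ^ (ex y - 1) / (1 / 2 - y) := by
  classical
  have hC := D.hC
  have hM := D.hM
  refine ⟨12 * C + 768 * C + 9 / 4 * M, 3, by positivity, by norm_num, fun T hT y hy0 hy1 x₀ hx S hS => ?_⟩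
  have hT0 : 0 < T := by linarith
  have hlog : 1 ≤ Real.log T := by
    rw [Real.le_log_iff_exp_le hT0]
    have := Real.exp_one_lt_d9
    linarith
  obtain ⟨e, he⟩ : ∃ e, e = ex (max y 0) := ⟨_, rfl⟩
  have hp1 : max y 0 < 1 / 2 := max_lt hy1 (by norm_num)
  have hp0 : 0 ≤ max y 0 := le_max_right _ _
  have he1 : e ≤ 1 := by rw [he]; exact ex_le_one hp0 hp1.le
  have he2 : 2 * (1 / 2 - max y 0) ≤ e := by rw [he]; exact ex_lower hp0 hp1.le
  have he0 : 0 < e := by linarith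
  have he3 : e ≤ ex y := by rw [he]; exact ex_anti (le_max_left _ _) hp1.le
  obtain ⟨k, hk1, hk2⟩ := exists_nat_pow_near (x := T) (y := 2) (by linarith) (by norm_num)
  have hTe : 0 < T ^ (e - 1) := by positivity
  have hTe' : T ^ e = T ^ (e - 1) * T := by
    rw [Real.rpow_sub_one hT0.ne']
    field_simp
  have hTe1 : 1 ≤ T ^ e := Real.one_le_rpow (by linarith) he0.le
  -- the terms
  have hterm : ∀ w ∈ S, 0 ≤ m w * (w.im - y) := fun w hw =>
    mul_nonneg (D.hm w) (by linarith [(hS w hw).2])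
  -- block zero
  have hb0 : ∑ w ∈ S with bl w = 0, m w * ((w.im - y) * T / (T ^ 2 + (x₀ - w.re) ^ 2)) ≤
      3 / 2 * M * T ^ (e - 1) := by
    have h1 : ∀ w ∈ S.filter (fun w => bl w = 0), m w * ((w.im - y) * T / (T ^ 2 + (x₀ - w.re) ^ 2)) ≤
        m w * (3 / 2 * (1 / T)) := by
      intro w hw
      rw [mem_filter] at hw
      apply mul_le_mul_of_nonneg_left _ (D.hm w)
      have h2 := (le_abs_self _).trans_lt (D.hZ w (hS w hw.1).1)
      have h3 : -1 ≤ y := by
        have : 1 / Real.log T ≤ 1 := by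
          rw [div_le_one (by linarith)]
          exact hlog
        linarith
      have h4 : w.im - y ≤ 3 / 2 := by linarith
      have h5 := (hS w hw.1).2
      rw [mul_div_assoc]
      exact mul_le_mul h4 (wt_one hT0) (by positivity) (by norm_num)
    have h2 := D.h2 (S.filter fun w => bl w = 0) (by
      intro w hw
      rw [mem_filter] at hw
      refine ⟨(hS w hw.1).1, ?_⟩
      have := bl_le w
      rw [hw.2] at this
      simpa using this)
    calc ∑ w ∈ S with bl w = 0, m w * ((w.im - y) * T / (T ^ 2 + (x₀ - w.re) ^ 2)) ≤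
        ∑ w ∈ S with bl w = 0, m w * (3 / 2 * (1 / T)) := Finset.sum_le_sum h1
      _ = (∑ w ∈ S with bl w = 0, m w) * (3 / 2 * (1 / T)) := by rw [Finset.sum_mul]
      _ ≤ M * (3 / 2 * (1 / T)) := by gcongr
      _ ≤ M * (3 / 2 * T ^ (e - 1)) := by
          gcongr
          rw [div_le_iff₀ hT0, ← hTe']
          exact hTe1
      _ = _ := by ring
  -- small blocks
  have hsm : ∀ n : ℕ, n ≠ 0 → n ≤ k →
      ∑ w ∈ S with bl w = n, m w * ((w.im - y) * T / (T ^ 2 + (x₀ - w.re) ^ 2)) ≤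
      4 * C * T ^ (e - 1) * ((1 / 2 : ℝ) ^ e) ^ (k - n) := by
    intro n hn hnk
    have hX2 : (2 : ℝ) ≤ 2 ^ n := by
      calc (2 : ℝ) = 2 ^ 1 := by norm_num
        _ ≤ 2 ^ n := pow_le_pow_right₀ (by norm_num) (by omega)
    have hXT : (2 : ℝ) ^ n ≤ T := (pow_le_pow_right₀ (by norm_num) hnk).trans hk1
    have h1 := block D (X := 2 ^ n) hX2 hlog hy0 hy1 (S.filter fun w => bl w = n) (by
      intro w hw
      rw [mem_filter] at hw
      refine ⟨(hS w hw.1).1, (hS w hw.1).2, ?_, ?_⟩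
      · have := bl_lt (w := w) (by omega)
        rwa [hw.2] at this
      · have := bl_le w
        rw [hw.2, pow_succ] at this
        linarith)
    rw [← he] at h1
    have h2 : ∑ w ∈ S with bl w = n, m w * ((w.im - y) * T / (T ^ 2 + (x₀ - w.re) ^ 2)) ≤
        (∑ w ∈ S with bl w = n, m w * (w.im - y)) * (1 / T) := by
      rw [Finset.sum_mul]
      apply Finset.sum_le_sum
      intro w hw
      rw [mem_filter] at hw
      rw [mul_div_assoc, ← mul_assoc]
      exact mul_le_mul_of_nonneg_left (wt_one hT0) (hterm w hw.1)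
    have h3 : Real.log (2 ^ n) / Real.log T ≤ 1 := by
      rw [div_le_one (by linarith)]
      exact Real.log_le_log (by positivity) hXT
    have h4 : ((2 : ℝ) ^ n) ^ e ≤ T ^ e * ((1 / 2 : ℝ) ^ e) ^ (k - n) := by
      have h5 : ((1 / 2 : ℝ) ^ e) ^ (k - n) = ((1 / 2 : ℝ) ^ (k - n)) ^ e := by
        rw [← Real.rpow_natCast, ← Real.rpow_natCast, ← Real.rpow_mul (by norm_num),
          ← Real.rpow_mul (by norm_num)]
        ring_nf
      rw [h5, ← Real.mul_rpow hT0.le (by positivity)]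
      apply Real.rpow_le_rpow (by positivity) _ he0.le
      have h6 : (2 : ℝ) ^ n = 2 ^ k * (1 / 2) ^ (k - n) := by
        have h7 : (2 : ℝ) ^ k = 2 ^ n * 2 ^ (k - n) := by rw [← pow_add]; congr 1; omega
        rw [h7, mul_assoc, ← mul_pow]
        norm_num
      rw [h6]
      gcongr
    have h6 : 0 ≤ 1 + Real.log (2 ^ n) / Real.log T := by
      have : 0 ≤ Real.log ((2 : ℝ) ^ n) := Real.log_nonneg (by linarith)
      positivity
    calc _ ≤ (∑ w ∈ S with bl w = n, m w * (w.im - y)) * (1 / T) := h2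
      _ ≤ (2 * C * ((2 : ℝ) ^ n) ^ e * (1 + Real.log (2 ^ n) / Real.log T)) * (1 / T) := by gcongr
      _ ≤ (2 * C * (T ^ e * ((1 / 2 : ℝ) ^ e) ^ (k - n)) * (1 + 1)) * (1 / T) := by gcongr
      _ = _ := by
          rw [hTe']
          field_simp
          ring
  -- large blocks
  have hlg : ∀ n : ℕ, k < n →
      ∑ w ∈ S with bl w = n, m w * ((w.im - y) * T / (T ^ 2 + (x₀ - w.re) ^ 2)) ≤
      128 * C * T ^ (e - 1) * (3 / 4 : ℝ) ^ (n - k) := by
    intro n hnk
    have hXT' : T < (2 : ℝ) ^ n := hk2.trans_le (pow_le_pow_right₀ (by norm_num) hnk)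
    have hX2 : (2 : ℝ) ≤ 2 ^ n := by linarith
    have h1 := block D (X := 2 ^ n) hX2 hlog hy0 hy1 (S.filter fun w => bl w = n) (by
      intro w hw
      rw [mem_filter] at hw
      refine ⟨(hS w hw.1).1, (hS w hw.1).2, ?_, ?_⟩
      · have := bl_lt (w := w) (by omega)
        rwa [hw.2] at this
      · have := bl_le w
        rw [hw.2, pow_succ] at this
        linarith)
    rw [← he] at h1
    have h2 : ∑ w ∈ S with bl w = n, m w * ((w.im - y) * T / (T ^ 2 + (x₀ - w.re) ^ 2)) ≤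
        (∑ w ∈ S with bl w = n, m w * (w.im - y)) * (16 * T / ((2 : ℝ) ^ n) ^ 2) := by
      rw [Finset.sum_mul]
      apply Finset.sum_le_sum
      intro w hw
      rw [mem_filter] at hw
      rw [mul_div_assoc, ← mul_assoc]
      refine mul_le_mul_of_nonneg_left (wt_far hT0 hXT' hx ?_) (hterm w hw.1)
      have := bl_lt (w := w) (by omega)
      rwa [hw.2] at this
    have h7 : (2 : ℝ) ^ n = 2 ^ k * 2 ^ (n - k) := by rw [← pow_add]; congr 1; omega
    have h3 : 1 + Real.log (2 ^ n) / Real.log T ≤ 2 + ((n - k : ℕ) : ℝ) := by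
      have h8 : Real.log (2 ^ n) ≤ Real.log T + ((n - k : ℕ) : ℝ) * Real.log T := by
        rw [h7, Real.log_mul (by positivity) (by positivity), Real.log_pow 2 (n - k)]
        have h9 : Real.log (2 ^ k) ≤ Real.log T := Real.log_le_log (by positivity) hk1
        have h10 : Real.log 2 ≤ Real.log T := Real.log_le_log (by norm_num) (by linarith)
        have h11 : ((n - k : ℕ) : ℝ) * Real.log 2 ≤ ((n - k : ℕ) : ℝ) * Real.log T := by gcongr
        linarith
      have h9 : Real.log (2 ^ n) / Real.log T ≤ 1 + ((n - k : ℕ) : ℝ) := by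
        rw [div_le_iff₀ (by linarith)]
        linarith
      linarith
    have h4 : ((2 : ℝ) ^ n) ^ e * (16 * T / ((2 : ℝ) ^ n) ^ 2) ≤ 32 * T ^ (e - 1) * (1 / 2) ^ (n - k) := by
      have hX0 : (0 : ℝ) < 2 ^ n := by positivity
      have h8 : ((2 : ℝ) ^ n) ^ e ≤ T ^ e * (2 ^ n / T) := by
        have h9 : (2 : ℝ) ^ n = T * (2 ^ n / T) := by field_simp
        have h10 : 1 ≤ (2 : ℝ) ^ n / T := by rw [le_div_iff₀ hT0]; linarith
        calc ((2 : ℝ) ^ n) ^ e = T ^ e * (2 ^ n / T) ^ e := by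
              conv_lhs => rw [h9]
              rw [Real.mul_rpow hT0.le (by positivity)]
          _ ≤ T ^ e * (2 ^ n / T) ^ (1 : ℝ) :=
              mul_le_mul_of_nonneg_left (Real.rpow_le_rpow_of_exponent_le h10 he1) (by positivity)
          _ = _ := by rw [Real.rpow_one]
      have h9 : T * (1 / 2 : ℝ) ≤ 2 ^ k := by
        rw [pow_succ] at hk2
        linarith
      have h10 : (1 : ℝ) / 2 ^ n ≤ 2 / T * (1 / 2) ^ (n - k) := by
        have h11 : (1 : ℝ) / 2 ^ n = 1 / 2 ^ k * (1 / 2) ^ (n - k) := by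
          rw [h7, one_div_pow]
          field_simp
        rw [h11]
        refine mul_le_mul_of_nonneg_right ?_ (by positivity)
        rw [div_le_div_iff₀ (by positivity) hT0]
        linarith
      calc ((2 : ℝ) ^ n) ^ e * (16 * T / ((2 : ℝ) ^ n) ^ 2) ≤
          (T ^ e * (2 ^ n / T)) * (16 * T / ((2 : ℝ) ^ n) ^ 2) := by gcongr
        _ = 16 * T ^ e * (1 / 2 ^ n) := by field_simp
        _ ≤ 16 * T ^ e * (2 / T * (1 / 2) ^ (n - k)) := by gcongr
        _ = _ := by
            rw [hTe']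
            field_simp
            ring
    have h5 : (2 + ((n - k : ℕ) : ℝ)) * (1 / 2 : ℝ) ^ (n - k) ≤ 2 * (3 / 4 : ℝ) ^ (n - k) := by
      have h6 : 1 + ((n - k : ℕ) : ℝ) * (1 / 2) ≤ (1 + 1 / 2 : ℝ) ^ (n - k) :=
        one_add_mul_le_pow (by norm_num) _
      have h8 : (3 / 4 : ℝ) ^ (n - k) = (1 + 1 / 2) ^ (n - k) * (1 / 2) ^ (n - k) := by
        rw [← mul_pow]
        norm_num
      rw [h8, ← mul_assoc]
      gcongr
      linarith
    calc _ ≤ (∑ w ∈ S with bl w = n, m w * (w.im - y)) * (16 * T / ((2 : ℝ) ^ n) ^ 2) := h2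
      _ ≤ (2 * C * ((2 : ℝ) ^ n) ^ e * (1 + Real.log (2 ^ n) / Real.log T)) *
          (16 * T / ((2 : ℝ) ^ n) ^ 2) := by gcongr
      _ = 2 * C * (((2 : ℝ) ^ n) ^ e * (16 * T / ((2 : ℝ) ^ n) ^ 2)) *
          (1 + Real.log (2 ^ n) / Real.log T) := by ring
      _ ≤ 2 * C * (32 * T ^ (e - 1) * (1 / 2) ^ (n - k)) * (2 + ((n - k : ℕ) : ℝ)) := by
          have : 0 ≤ 1 + Real.log (2 ^ n) / Real.log T := by
            have : 0 ≤ Real.log ((2 : ℝ) ^ n) := Real.log_nonneg (by linarith)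
            positivity
          gcongr
      _ = 64 * C * T ^ (e - 1) * ((2 + ((n - k : ℕ) : ℝ)) * (1 / 2) ^ (n - k)) := by ring
      _ ≤ 64 * C * T ^ (e - 1) * (2 * (3 / 4 : ℝ) ^ (n - k)) := by gcongr
      _ = _ := by ring
  -- summation
  have hsum : ∑ w ∈ S, m w * ((w.im - y) * T / (T ^ 2 + (x₀ - w.re) ^ 2)) ≤
      3 / 2 * M * T ^ (e - 1) + 4 * C * T ^ (e - 1) * (2 / e) + 128 * C * T ^ (e - 1) * 4 := by
    obtain ⟨f, hf⟩ : ∃ f : ℕ → ℝ, f = fun n =>
      ∑ w ∈ S with bl w = n, m w * ((w.im - y) * T / (T ^ 2 + (x₀ - w.re) ^ 2)) := ⟨_, rfl⟩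
    have h1 : ∑ w ∈ S, m w * ((w.im - y) * T / (T ^ 2 + (x₀ - w.re) ^ 2)) = ∑ n ∈ S.image bl, f n := by
      rw [hf]
      exact (Finset.sum_fiberwise_of_maps_to (fun w hw => mem_image_of_mem _ hw) _).symm
    have h2 : ∑ n ∈ S.image bl, f n ≤ f 0 + (∑ n ∈ (S.image bl).filter (fun n => n ≠ 0 ∧ n ≤ k), f n) +
        ∑ n ∈ (S.image bl).filter (fun n => k < n), f n := by
      have hf0 : ∀ n, 0 ≤ f n := by
        intro n
        rw [hf]
        apply Finset.sum_nonneg
        intro w hw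
        rw [mem_filter] at hw
        rw [mul_div_assoc, ← mul_assoc]
        exact mul_nonneg (hterm w hw.1) (by positivity)
      have h3 : S.image bl ⊆ ({0} : Finset ℕ) ∪ (S.image bl).filter (fun n => n ≠ 0 ∧ n ≤ k) ∪
          (S.image bl).filter (fun n => k < n) := by
        intro n hn
        rw [mem_union, mem_union, mem_singleton, mem_filter, mem_filter]
        by_cases h0 : n = 0
        · exact Or.inl (Or.inl h0)
        · rcases le_or_gt n k with h4 | h4
          · exact Or.inl (Or.inr ⟨hn, h0, h4⟩)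
          · exact Or.inr ⟨hn, h4⟩
      refine (Finset.sum_le_sum_of_subset_of_nonneg h3 fun n _ _ => hf0 n).trans ?_
      have h5 : ∀ A B : Finset ℕ, ∑ n ∈ A ∪ B, f n ≤ ∑ n ∈ A, f n + ∑ n ∈ B, f n := by
        intro A B
        rw [← Finset.sum_union_inter]
        have : 0 ≤ ∑ n ∈ A ∩ B, f n := Finset.sum_nonneg fun n _ => hf0 n
        linarith
      refine (h5 _ _).trans ?_
      have h6 := h5 ({0} : Finset ℕ) ((S.image bl).filter (fun n => n ≠ 0 ∧ n ≤ k))
      rw [Finset.sum_singleton] at h6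
      linarith
    have hr1 : (1 / 2 : ℝ) ^ e ≤ 1 - e / 2 := by
      have := rpow_one_add_le_one_add_mul_self (s := -(1 / 2)) (by norm_num) he0.le he1
      norm_num at this ⊢
      linarith
    have hr0 : 0 ≤ (1 / 2 : ℝ) ^ e := by positivity
    have h3 : ∑ n ∈ (S.image bl).filter (fun n => n ≠ 0 ∧ n ≤ k), f n ≤ 4 * C * T ^ (e - 1) * (2 / e) := by
      calc ∑ n ∈ (S.image bl).filter (fun n => n ≠ 0 ∧ n ≤ k), f n ≤
          ∑ n ∈ (S.image bl).filter (fun n => n ≠ 0 ∧ n ≤ k),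
            4 * C * T ^ (e - 1) * ((1 / 2 : ℝ) ^ e) ^ (k - n) := by
            apply Finset.sum_le_sum
            intro n hn
            rw [mem_filter] at hn
            rw [hf]
            exact hsm n hn.2.1 hn.2.2
        _ = 4 * C * T ^ (e - 1) * ∑ n ∈ (S.image bl).filter (fun n => n ≠ 0 ∧ n ≤ k),
            ((1 / 2 : ℝ) ^ e) ^ (k - n) := by rw [Finset.mul_sum]
        _ ≤ 4 * C * T ^ (e - 1) * (1 / (1 - (1 / 2 : ℝ) ^ e)) := by
            gcongr
            apply geo_down hr0 (by linarith)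
            intro n hn
            rw [mem_filter] at hn
            exact hn.2.2
        _ ≤ 4 * C * T ^ (e - 1) * (2 / e) := by
            refine mul_le_mul_of_nonneg_left ?_ (by positivity)
            rw [div_le_div_iff₀ (by linarith) he0]
            linarith
    have h4 : ∑ n ∈ (S.image bl).filter (fun n => k < n), f n ≤ 128 * C * T ^ (e - 1) * 4 := by
      calc ∑ n ∈ (S.image bl).filter (fun n => k < n), f n ≤
          ∑ n ∈ (S.image bl).filter (fun n => k < n), 128 * C * T ^ (e - 1) * (3 / 4 : ℝ) ^ (n - k) := by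
            apply Finset.sum_le_sum
            intro n hn
            rw [mem_filter] at hn
            rw [hf]
            exact hlg n hn.2
        _ = 128 * C * T ^ (e - 1) * ∑ n ∈ (S.image bl).filter (fun n => k < n), (3 / 4 : ℝ) ^ (n - k) := by
            rw [Finset.mul_sum]
        _ ≤ 128 * C * T ^ (e - 1) * 4 := by
            gcongr
            refine (geo_up (r := 3 / 4) (by norm_num) (by norm_num) k _ ?_).trans (by norm_num)
            intro n hn
            rw [mem_filter] at hn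
            exact hn.2.le
    have h5 : f 0 ≤ 3 / 2 * M * T ^ (e - 1) := by
      rw [hf]
      exact hb0
    linarith
  -- conclusion
  have hH : 0 < 1 / 2 - y := by linarith
  have hh : 0 < 1 / 2 - max y 0 := by linarith
  have hinv : 1 / Real.log T ≤ 1 := by
    rw [div_le_one (by linarith)]
    exact hlog
  have hHh : 1 / 2 - y ≤ 3 * (1 / 2 - max y 0) := by
    rcases le_total 0 y with h | h
    · rw [max_eq_left h]
      linarith
    · rw [max_eq_right h]
      linarith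
  have hH2 : 1 / 2 - y ≤ 3 / 2 := by linarith
  have a1 : 2 / e ≤ 3 / (1 / 2 - y) := by
    rw [div_le_div_iff₀ he0 hH]
    nlinarith
  have a2 : (1 : ℝ) ≤ 3 / 2 / (1 / 2 - y) := by
    rw [le_div_iff₀ hH]
    linarith
  have a3 : T ^ (e - 1) ≤ T ^ (ex y - 1) := Real.rpow_le_rpow_of_exponent_le (by linarith) (by linarith)
  calc _ ≤ 3 / 2 * M * T ^ (e - 1) + 4 * C * T ^ (e - 1) * (2 / e) + 128 * C * T ^ (e - 1) * 4 := hsum
    _ = (3 / 2 * M * 1 + 4 * C * (2 / e) + 512 * C * 1) * T ^ (e - 1) := by ring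
    _ ≤ (3 / 2 * M * (3 / 2 / (1 / 2 - y)) + 4 * C * (3 / (1 / 2 - y)) + 512 * C * (3 / 2 / (1 / 2 - y))) *
        T ^ (e - 1) := by gcongr
    _ = (12 * C + 768 * C + 9 / 4 * M) / (1 / 2 - y) * T ^ (e - 1) := by
        field_simp
        ring
    _ ≤ (12 * C + 768 * C + 9 / 4 * M) / (1 / 2 - y) * T ^ (ex y - 1) := by
        gcongr
    _ = _ := by ring

end Pool.Agent.J4H49.DN
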