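import Pool.Agent.J4H49.DN.Ana
import Pool.Agent.J4H57.DN.Blk
import Pool.Agent.J4H98.DN.Ord
import Pool.Agent.J4H82.DN.St

/-!
# DN-I4: the sum over the zeros above a line (helper49; block counts: helper57, orders: helper98)
-/

set_option autoImplicit false

namespace Pool.Agent.J4H49.DN

open Finset
open Pool.Agent.J4H34.DN
open Pool.Agent.J4H98.DN (hO hE im_lt)

theorem dat (hI : S_INP) : ∃ C M : ℝ, Dat (fun w => Xf w = 0) (fun w => (analyticOrderNatAt Xf w : ℝ)) C M := by
  classical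
  obtain ⟨B, hB, h1, -⟩ := Pool.Agent.J4H57.DN.blk hI hO hE
  obtain ⟨hd, him, hne⟩ := Pool.Agent.J4H82.DN.t_St
  have hfin := Pool.Agent.J4H57.DN.fin2 hd hne him 2
  refine ⟨2 * B, ∑ w ∈ hfin.toFinset, (analyticOrderNatAt Xf w : ℝ), ⟨fun w => Nat.cast_nonneg _, fun w hw => im_lt hw,
    by positivity, Finset.sum_nonneg fun w _ => Nat.cast_nonneg _, ?_, ?_⟩⟩
  · intro X v hX hv hv2 S hS
    have ha := h1 X v hX hv hv2 (S.filter fun w => v ≤ w.im) (by
      intro w hw
      rw [mem_filter] at hw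
      obtain ⟨a, -, b, c⟩ := hS w hw.1
      exact ⟨a, b, c, hw.2⟩)
    have hb := h1 X v hX hv hv2 ((S.filter fun w => ¬ v ≤ w.im).image fun w => -w) (by
      intro w hw
      rw [mem_image] at hw
      obtain ⟨u, hu, rfl⟩ := hw
      rw [mem_filter] at hu
      obtain ⟨a, d, b, c⟩ := hS u hu.1
      have h2 : v ≤ -u.im := by
        rcases abs_cases u.im with ⟨e1, _⟩ | ⟨e1, _⟩
        · rw [e1] at d
          exact absurd d hu.2
        · rwa [e1] at d
      refine ⟨(hE u a).1, ?_, ?_, ?_⟩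
      · rwa [Complex.neg_re, abs_neg]
      · rwa [Complex.neg_re, abs_neg]
      · rwa [Complex.neg_im])
    rw [Finset.sum_image (fun a _ b _ h => neg_injective h)] at hb
    have hc : ∑ w ∈ S.filter (fun w => ¬ v ≤ w.im), (analyticOrderNatAt Xf (-w) : ℝ) =
        ∑ w ∈ S.filter (fun w => ¬ v ≤ w.im), (analyticOrderNatAt Xf w : ℝ) := by
      apply Finset.sum_congr rfl
      intro w hw
      rw [mem_filter] at hw
      rw [(hE w (hS w hw.1).1).2]
    rw [hc] at hb
    rw [← Finset.sum_filter_add_sum_filter_not S (fun w => v ≤ w.im)]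
    linarith
  · intro S hS
    apply Finset.sum_le_sum_of_subset_of_nonneg
    · intro w hw
      rw [Set.Finite.mem_toFinset]
      exact hS w hw
    · intro w _ _
      exact Nat.cast_nonneg _

theorem t_I4 : S_I4 := by
  intro hI
  obtain ⟨C, M, D⟩ := dat hI
  obtain ⟨C', T₀, h1, h2, h3⟩ := ana D
  exact ⟨C', T₀, h1, h2, h3⟩

end Pool.Agent.J4H49.DN
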